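import Mathlib

set_option autoImplicit false

namespace Pool.Agent.Results.MP_d015b4_co.NoAntichain

/-! ### Definition -/

/-- `K` is a cutset for `x`: every element of `K` is incomparable to `x`, and `K ∪ {x}` meets every
maximal chain. -/
def IsCutsetFor {L : Type} [Lattice L] (x : L) (K : Set L) : Prop :=
  (∀ y ∈ K, ¬ y ≤ x ∧ ¬ x ≤ y) ∧
    ∀ C : Set L, IsMaxChain (· ≤ ·) C → ((K ∪ {x}) ∩ C).Nonempty

/-! ### Two general facts -/

section General
variable {L : Type} [Lattice L] [BoundedOrder L] [Finite L]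

/-- A set `S` meets every maximal chain if there is a set `R` containing `⊥`, not containing `⊤`,
and closed under going up along covers outside `S`. -/
theorem meets_of_closed (R S : Set L) (hbot : ⊥ ∈ R) (htop : ⊤ ∉ R)
    (hcl : ∀ a ∈ R, ∀ b, b ∉ R → b ∉ S → a < b → ∃ c, a < c ∧ c < b)
    (C : Set L) (hC : IsMaxChain (· ≤ ·) C) : (S ∩ C).Nonempty := by
  by_contra hne
  have hno : ∀ y ∈ C, y ∉ S := fun y hy hs => hne ⟨y, hs, hy⟩
  have hchain : IsChain (· ≤ ·) C := hC.1
  have hmem : ∀ c : L, (∀ d ∈ C, d ≤ c ∨ c ≤ d) → c ∈ C := by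
    intro c hc
    have h1 : IsChain (· ≤ ·) (insert c C) := by
      refine hchain.insert ?_
      intro b hb _
      rcases hc b hb with h | h
      · exact Or.inr h
      · exact Or.inl h
    have h2 := hC.2 h1 (Set.subset_insert c C)
    rw [h2]
    exact Set.mem_insert c C
  have hbotC : (⊥ : L) ∈ C := hmem ⊥ (fun d _ => Or.inr bot_le)
  have htopC : (⊤ : L) ∈ C := hmem ⊤ (fun d _ => Or.inl le_top)
  obtain ⟨a, ⟨haC, haR⟩, hamax⟩ :=
    (Set.toFinite (C ∩ R)).exists_maximal ⟨⊥, hbotC, hbot⟩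
  have hane : a ≠ ⊤ := by
    intro h
    exact htop (h ▸ haR)
  obtain ⟨b, ⟨hbC, hab⟩, hbmin⟩ :=
    (Set.toFinite (C ∩ {z | a < z})).exists_minimal ⟨⊤, htopC, lt_top_iff_ne_top.2 hane⟩
  have hab' : a < b := hab
  have hbR : b ∉ R := by
    intro hbR
    have := hamax ⟨hbC, hbR⟩ hab'.le
    exact absurd (lt_of_lt_of_le hab' this) (lt_irrefl _)
  obtain ⟨c, hac, hcb⟩ := hcl a haR b hbR (hno b hbC) hab'
  have hcC : c ∈ C := by
    apply hmem
    intro d hd
    by_cases hda : d ≤ a
    · exact Or.inl (hda.trans hac.le)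
    · right
      have had : a < d := by
        rcases hchain.total haC hd with h | h
        · exact lt_of_le_of_ne h (fun h' => hda h'.ge)
        · exact absurd h hda
      rcases hchain.total hbC hd with h | h
      · exact hcb.le.trans h
      · exact hcb.le.trans (hbmin ⟨hd, had⟩ h)
  have := hbmin ⟨hcC, hac⟩ hcb.le
  exact absurd (lt_of_lt_of_le hcb this) (lt_irrefl _)

end General

/-- Lower bound for cutsets for `x` from maximal chains which avoid `x` and pairwise share only
elements comparable to `x`. -/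
theorem card_le_of_chains {L : Type} [Lattice L] [Finite L] (x : L) (n : ℕ)
    (c : Fin n → Set L) (hc : ∀ i, IsMaxChain (· ≤ ·) (c i)) (hx : ∀ i, x ∉ c i)
    (hd : ∀ i j, i ≠ j → ∀ y ∈ c i, y ∈ c j → y ≤ x ∨ x ≤ y)
    (K : Set L) (hK : IsCutsetFor x K) : n ≤ K.ncard := by
  have h1 : ∀ i, ∃ y, y ∈ K ∧ y ∈ c i := by
    intro i
    obtain ⟨y, hy, hyc⟩ := hK.2 (c i) (hc i)
    rcases hy with hy | hy
    · exact ⟨y, hy, hyc⟩
    · exact absurd (Set.mem_singleton_iff.1 hy ▸ hyc) (hx i)
  choose f hfK hfc using h1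
  have hinj : Function.Injective f := by
    intro i j hij
    by_contra hne
    rcases hd i j hne (f i) (hfc i) (hij ▸ hfc j) with h | h
    · exact (hK.1 _ (hfK i)).1 h
    · exact (hK.1 _ (hfK i)).2 h
  have h2 : (Set.range f).ncard = n := by
    rw [← Set.image_univ, Set.ncard_image_of_injective _ hinj, Set.ncard_univ]
    simp
  calc n = (Set.range f).ncard := h2.symm
    _ ≤ K.ncard := Set.ncard_le_ncard (by rintro _ ⟨i, rfl⟩; exact hfK i) (Set.toFinite K)

/-! ### The lattice -/

/-- The distributive lattice `((3 × 2 × 2) ⊕ 1) × 2 × 2` with 52 elements. -/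
abbrev M : Type := WithTop (Fin 3 × Bool × Bool) × Bool × Bool

/-- Notation for the elements of `M`; the first coordinate `3` stands for the added top. -/
def el (q b c d e : ℕ) : M :=
  (if q = 3 then ⊤ else (((Fin.ofNat 3 q, b.beq 1, c.beq 1) : Fin 3 × Bool × Bool) :
    WithTop (Fin 3 × Bool × Bool)), d.beq 1, e.beq 1)

/-- The special element. -/
def xx : M := el 0 1 1 1 1

/-- The elements incomparable to `xx`. -/
def incs : List M :=
  [el 1 0 0 0 0, el 1 1 0 0 0, el 1 0 1 0 0, el 1 0 0 1 0, el 1 0 0 0 1,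
   el 2 0 0 0 0, el 1 1 1 0 0, el 1 1 0 1 0, el 1 0 1 1 0, el 1 1 0 0 1,
   el 1 0 1 0 1, el 1 0 0 1 1, el 2 1 0 0 0, el 2 0 1 0 0, el 2 0 0 1 0,
   el 2 0 0 0 1, el 1 1 1 1 0, el 1 1 1 0 1, el 1 1 0 1 1, el 1 0 1 1 1,
   el 2 1 1 0 0, el 2 1 0 1 0, el 2 0 1 1 0, el 2 1 0 0 1, el 2 0 1 0 1,
   el 2 0 0 1 1, el 2 1 1 1 0, el 2 1 1 0 1, el 2 1 0 1 1, el 2 0 1 1 1,
   el 3 1 1 0 0, el 3 1 1 1 0, el 3 1 1 0 1]

/-- A cutset for `xx` with nine elements. -/
def cut : List M :=
  [el 1 1 1 1 0, el 1 1 1 0 1, el 1 1 0 1 1, el 1 0 1 1 1, el 2 1 1 0 0,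
   el 2 1 1 1 0, el 2 1 1 0 1, el 2 1 0 1 1, el 2 0 1 1 1]

/-- The elements reachable from `⊥` without meeting `cut` or `xx`. -/
def reach : List M :=
  [el 0 0 0 0 0, el 1 0 0 0 0, el 0 1 0 0 0, el 1 1 0 0 0, el 0 0 1 0 0,
   el 1 0 1 0 0, el 0 1 1 0 0, el 1 1 1 0 0, el 0 0 0 1 0, el 1 0 0 1 0,
   el 0 1 0 1 0, el 1 1 0 1 0, el 0 0 1 1 0, el 1 0 1 1 0, el 0 1 1 1 0,
   el 0 0 0 0 1, el 1 0 0 0 1, el 0 1 0 0 1, el 1 1 0 0 1, el 0 0 1 0 1,
   el 1 0 1 0 1, el 0 1 1 0 1, el 0 0 0 1 1, el 1 0 0 1 1, el 0 1 0 1 1,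
   el 0 0 1 1 1, el 2 0 0 0 0, el 2 1 0 0 0, el 2 0 1 0 0, el 2 0 0 1 0,
   el 2 1 0 1 0, el 2 0 1 1 0, el 2 0 0 0 1, el 2 1 0 0 1, el 2 0 1 0 1,
   el 2 0 0 1 1]

/-- Nine maximal chains. -/
def chains : List (List M) :=
  [[el 0 0 0 0 0, el 1 0 0 0 0, el 2 0 0 0 0, el 2 1 0 0 0, el 2 1 1 0 0,
     el 3 1 1 0 0, el 3 1 1 1 0, el 3 1 1 1 1],
    [el 0 0 0 0 0, el 0 1 0 0 0, el 1 1 0 0 0, el 1 1 1 0 0, el 1 1 1 1 0,
     el 1 1 1 1 1, el 2 1 1 1 1, el 3 1 1 1 1],
    [el 0 0 0 0 0, el 0 1 0 0 0, el 0 1 1 0 0, el 0 1 1 0 1, el 1 1 1 0 1,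
     el 1 1 1 1 1, el 2 1 1 1 1, el 3 1 1 1 1],
    [el 0 0 0 0 0, el 0 1 0 0 0, el 0 1 0 1 0, el 1 1 0 1 0, el 2 1 0 1 0,
     el 2 1 1 1 0, el 2 1 1 1 1, el 3 1 1 1 1],
    [el 0 0 0 0 0, el 0 1 0 0 0, el 0 1 0 1 0, el 0 1 0 1 1, el 1 1 0 1 1,
     el 1 1 1 1 1, el 2 1 1 1 1, el 3 1 1 1 1],
    [el 0 0 0 0 0, el 0 1 0 0 0, el 0 1 0 0 1, el 1 1 0 0 1, el 2 1 0 0 1,
     el 2 1 1 0 1, el 2 1 1 1 1, el 3 1 1 1 1],
    [el 0 0 0 0 0, el 0 0 1 0 0, el 1 0 1 0 0, el 1 0 1 1 0, el 1 0 1 1 1,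
     el 1 1 1 1 1, el 2 1 1 1 1, el 3 1 1 1 1],
    [el 0 0 0 0 0, el 0 0 1 0 0, el 0 0 1 0 1, el 1 0 1 0 1, el 2 0 1 0 1,
     el 2 0 1 1 1, el 2 1 1 1 1, el 3 1 1 1 1],
    [el 0 0 0 0 0, el 0 0 0 1 0, el 1 0 0 1 0, el 1 0 0 1 1, el 2 0 0 1 1,
     el 2 1 0 1 1, el 2 1 1 1 1, el 3 1 1 1 1]]

/-- Row `i` is the set of `j` such that `incs[i]` and `incs[j]` are incomparable, as a bitmask. -/
def rows : List ℕ :=
  [0, 591981884, 312793786, 5529319030, 3295769070, 987102, 871169976,
   6104481652, 5833686770, 3883531756, 3606445034, 7750285286, 592441308, 313515994,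
   5530173398, 3296690126, 6375276080, 4160616872, 8321234276, 8052536034, 871354264,
   6104788820, 5834251986, 3883888076, 3607059402, 7751022534, 6367907344, 4134357384,
   8277140804, 7997952706, 1072680856, 5294165520, 3060615560]

/-- The set of elements of a list. -/
def toSet (l : List M) : Set M := {y | y ∈ l}

theorem cut_inc : ∀ y ∈ cut, ¬ y ≤ xx ∧ ¬ xx ≤ y := by decide +kernel

theorem cut_nodup : cut.Nodup := by decide +kernel

instance decLt (a b : M) : Decidable (a < b) :=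
  decidable_of_iff (a ≤ b ∧ ¬ b ≤ a) lt_iff_le_not_ge.symm

/-- Closure condition for one pair. -/
def okR (a b : M) : Bool :=
  !(decide (b ∉ reach ∧ b ∉ cut ∧ b ≠ xx ∧ a < b)) || decide (∃ c : M, a < c ∧ c < b)

theorem okR_all : ∀ a ∈ reach, ∀ b : M, okR a b = true := by decide +kernel

theorem reach_closed (a : M) (ha : a ∈ reach) (b : M) (h1 : b ∉ reach) (h2 : b ∉ cut)
    (h3 : b ≠ xx) (h4 : a < b) : ∃ c : M, a < c ∧ c < b := by
  have h := okR_all a ha b
  unfold okR at h
  rw [decide_eq_true (show b ∉ reach ∧ b ∉ cut ∧ b ≠ xx ∧ a < b from ⟨h1, h2, h3, h4⟩)] at h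
  simpa using h

theorem bot_reach : (⊥ : M) ∈ reach := by decide +kernel

theorem top_reach : (⊤ : M) ∉ reach := by decide +kernel

theorem chains_chain : ∀ l ∈ chains, ∀ a ∈ l, ∀ b ∈ l, a ≤ b ∨ b ≤ a := by decide +kernel

theorem chains_max : ∀ l ∈ chains, ∀ z : M, z ∉ l → ∃ y ∈ l, ¬ y ≤ z ∧ ¬ z ≤ y := by
  decide +kernel

theorem chains_x : ∀ l ∈ chains, xx ∉ l := by decide +kernel

/-- Disjointness condition for two of the nine chains. -/
def okD (i j : Fin 9) : Bool :=
  decide (i = j) || (chains.getD i []).all fun y =>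
    !(decide (y ∈ chains.getD j [])) || (decide (y ≤ xx) || decide (xx ≤ y))

theorem okD_all : ∀ i j : Fin 9, okD i j = true := by decide +kernel

theorem chains_disj (i j : Fin 9) (hij : i ≠ j) (y : M) (h1 : y ∈ chains.getD i [])
    (h2 : y ∈ chains.getD j []) : y ≤ xx ∨ xx ≤ y := by
  have h := okD_all i j
  unfold okD at h
  rw [Bool.or_eq_true, List.all_eq_true] at h
  rcases h with h | h
  · exact absurd (of_decide_eq_true h) hij
  · have h3 := h y h1
    rw [Bool.or_eq_true, Bool.or_eq_true, decide_eq_true h2] at h3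
    rcases h3 with h3 | h3 | h3
    · exact absurd h3 (by decide)
    · exact Or.inl (of_decide_eq_true h3)
    · exact Or.inr (of_decide_eq_true h3)

theorem incs_complete : ∀ y : M, ¬ y ≤ xx → ¬ xx ≤ y → y ∈ incs := by decide +kernel

theorem rows_correct : ∀ i j : Fin 33, (rows.getD i 0).testBit j =
    decide (¬ incs.getD i xx ≤ incs.getD j xx ∧ ¬ incs.getD j xx ≤ incs.getD i xx) := by
  decide +kernel

/-- `srch i cand X r`: decide, going through the vertices `i - 1, …, 0`, whether there may be a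
maximal antichain with exactly nine elements. -/
def srch : ℕ → ℕ → ℕ → ℕ → Bool
  | 0, _, X, r => X.beq 0 && r.beq 9
  | i + 1, cand, X, r =>
    bif cand.testBit i then
      srch i (cand.land (rows.getD i 0)) (X.land (rows.getD i 0)) (r + 1) ||
        srch i cand (X.lor (2 ^ i)) r
    else srch i cand X r

theorem srch_false : srch 33 (2 ^ 33 - 1) 0 0 = false := by decide +kernel

theorem incs_nodup : incs.Nodup := by decide +kernel

theorem incs_len : incs.length = 33 := by decide +kernel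

theorem incs_inc : ∀ y ∈ incs, ¬ y ≤ xx ∧ ¬ xx ≤ y := by decide +kernel

/-- The `i`-th element incomparable to `xx`. -/
def g (i : ℕ) : M := incs.getD i xx

/-- Number of indices `l` with `i ≤ l < 33` and `g l ∈ A`. -/
noncomputable def cnt (A : Set M) (i : ℕ) : ℕ := by
  classical exact ((Finset.range 33).filter (fun l => i ≤ l ∧ g l ∈ A)).card

theorem cnt_succ_mem (A : Set M) (i : ℕ) (hi : i < 33) (h : g i ∈ A) :
    cnt A i = cnt A (i + 1) + 1 := by
  classical
  unfold cnt
  have : (Finset.range 33).filter (fun l => i ≤ l ∧ g l ∈ A) =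
      insert i ((Finset.range 33).filter (fun l => i + 1 ≤ l ∧ g l ∈ A)) := by
    ext l
    simp only [Finset.mem_filter, Finset.mem_range, Finset.mem_insert]
    constructor
    · rintro ⟨h1, h2, h3⟩
      rcases Nat.eq_or_lt_of_le h2 with h4 | h4
      · exact Or.inl h4.symm
      · exact Or.inr ⟨h1, h4, h3⟩
    · rintro (h1 | ⟨h1, h2, h3⟩)
      · subst h1
        exact ⟨hi, le_rfl, h⟩
      · exact ⟨h1, by omega, h3⟩
  rw [this, Finset.card_insert_of_notMem]
  simp

theorem cnt_succ_not (A : Set M) (i : ℕ) (h : g i ∉ A) : cnt A i = cnt A (i + 1) := by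
  classical
  unfold cnt
  congr 1
  ext l
  simp only [Finset.mem_filter, Finset.mem_range]
  constructor
  · rintro ⟨h1, h2, h3⟩
    rcases Nat.eq_or_lt_of_le h2 with h4 | h4
    · subst h4
      exact absurd h3 h
    · exact ⟨h1, h4, h3⟩
  · rintro ⟨h1, h2, h3⟩
    exact ⟨h1, by omega, h3⟩

theorem rows_iff (i j : ℕ) (hi : i < 33) (hj : j < 33) : (rows.getD i 0).testBit j = true ↔
    (¬ g i ≤ g j ∧ ¬ g j ≤ g i) := by
  have h := rows_correct ⟨i, hi⟩ ⟨j, hj⟩
  simp only at h
  rw [h]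
  unfold g
  exact decide_eq_true_iff

/-- Soundness of the search. -/
theorem srch_sound (A : Set M) (hA : ∀ i < 33, ∀ j < 33, i ≠ j → g i ∈ A → g j ∈ A →
      (¬ g i ≤ g j ∧ ¬ g j ≤ g i))
    (hmax : ∀ j < 33, g j ∉ A → ∃ l < 33, g l ∈ A ∧ ¬ (¬ g j ≤ g l ∧ ¬ g l ≤ g j))
    (hcard : cnt A 0 = 9) :
    ∀ i ≤ 33, ∀ cand X r : ℕ, (∀ j < i, g j ∈ A → cand.testBit j = true) →
      (∀ j < i, cand.testBit j = true → ∀ l, i ≤ l → l < 33 → g l ∈ A →
        (¬ g j ≤ g l ∧ ¬ g l ≤ g j)) →
      (∀ j, X.testBit j = true → j < 33 ∧ g j ∉ A ∧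
        ∀ l, i ≤ l → l < 33 → g l ∈ A → (¬ g j ≤ g l ∧ ¬ g l ≤ g j)) →
      r = cnt A i → srch i cand X r = true := by
  intro i
  induction i with
  | zero =>
    intro _ cand X r _ _ hX hr
    have hX0 : X = 0 := by
      apply Nat.eq_of_testBit_eq
      intro j
      rw [Nat.zero_testBit]
      by_contra hb
      have hb' : X.testBit j = true := by simpa using hb
      obtain ⟨h1, h2, h3⟩ := hX j hb'
      obtain ⟨l, hl, hlA, hl2⟩ := hmax j h1 h2
      exact hl2 (h3 l (Nat.zero_le l) hl hlA)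
    unfold srch
    rw [hX0, hr, hcard]
    rfl
  | succ i ih =>
    intro hi cand X r hcand hcand2 hX hr
    have hi' : i < 33 := hi
    unfold srch
    by_cases hm : g i ∈ A
    · have hb : cand.testBit i = true := hcand i (Nat.lt_succ_self i) hm
      rw [hb, cond_true, Bool.or_eq_true]
      left
      apply ih (by omega)
      · intro j hj hjA
        rw [Nat.land_eq, Nat.testBit_and, hcand j (by omega) hjA, Bool.true_and]
        exact (rows_iff i j hi' (by omega)).2 (hA i hi' j (by omega) (by omega) hm hjA)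
      · intro j hj hjc l hl hl33 hlA
        rw [Nat.land_eq, Nat.testBit_and, Bool.and_eq_true] at hjc
        rcases Nat.eq_or_lt_of_le hl with h4 | h4
        · subst h4
          have := (rows_iff i j hi' (by omega)).1 hjc.2
          exact ⟨this.2, this.1⟩
        · exact hcand2 j (by omega) hjc.1 l h4 hl33 hlA
      · intro j hj
        rw [Nat.land_eq, Nat.testBit_and, Bool.and_eq_true] at hj
        obtain ⟨h1, h2, h3⟩ := hX j hj.1
        refine ⟨h1, h2, ?_⟩
        intro l hl hl33 hlA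
        rcases Nat.eq_or_lt_of_le hl with h4 | h4
        · subst h4
          have := (rows_iff i j hi' h1).1 hj.2
          exact ⟨this.2, this.1⟩
        · exact h3 l h4 hl33 hlA
      · rw [hr, cnt_succ_mem A i hi' hm]
    · have hstep : ∀ X' : ℕ, (∀ j, X'.testBit j = true → j < 33 ∧ g j ∉ A ∧
          ∀ l, i + 1 ≤ l → l < 33 → g l ∈ A → (¬ g j ≤ g l ∧ ¬ g l ≤ g j)) →
          srch i cand X' r = true := by
        intro X' hX'
        apply ih (by omega)
        · intro j hj hjA
          exact hcand j (by omega) hjA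
        · intro j hj hjc l hl hl33 hlA
          rcases Nat.eq_or_lt_of_le hl with h4 | h4
          · subst h4
            exact absurd hlA hm
          · exact hcand2 j (by omega) hjc l h4 hl33 hlA
        · intro j hj
          obtain ⟨h1, h2, h3⟩ := hX' j hj
          refine ⟨h1, h2, ?_⟩
          intro l hl hl33 hlA
          rcases Nat.eq_or_lt_of_le hl with h4 | h4
          · subst h4
            exact absurd hlA hm
          · exact h3 l h4 hl33 hlA
        · rw [hr, cnt_succ_not A i hm]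
      cases hb : cand.testBit i with
      | false =>
        rw [cond_false]
        exact hstep X hX
      | true =>
        rw [cond_true, Bool.or_eq_true]
        right
        apply hstep
        intro j hj
        rw [Nat.lor_eq, Nat.testBit_or, Bool.or_eq_true] at hj
        rcases hj with hj | hj
        · exact hX j hj
        · rw [Nat.testBit_two_pow] at hj
          have hji : i = j := of_decide_eq_true hj
          subst hji
          exact ⟨hi', hm, fun l hl hl33 hlA => hcand2 i (Nat.lt_succ_self i) hb l hl hl33 hlA⟩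

theorem g_surj (y : M) (h1 : ¬ y ≤ xx) (h2 : ¬ xx ≤ y) : ∃ i < 33, g i = y := by
  obtain ⟨i, hi, hiy⟩ := List.getElem_of_mem (incs_complete y h1 h2)
  refine ⟨i, incs_len ▸ hi, ?_⟩
  unfold g
  rw [List.getD_eq_getElem _ _ hi, hiy]

theorem g_inc (i : ℕ) (hi : i < 33) : ¬ g i ≤ xx ∧ ¬ xx ≤ g i := by
  have hi' : i < incs.length := by rw [incs_len]; exact hi
  unfold g
  rw [List.getD_eq_getElem _ _ hi']
  exact incs_inc _ (List.getElem_mem hi')

theorem g_inj (i j : ℕ) (hi : i < 33) (hj : j < 33) (h : g i = g j) : i = j := by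
  have hi' : i < incs.length := by rw [incs_len]; exact hi
  have hj' : j < incs.length := by rw [incs_len]; exact hj
  unfold g at h
  rw [List.getD_eq_getElem _ _ hi', List.getD_eq_getElem _ _ hj'] at h
  exact (List.Nodup.getElem_inj_iff incs_nodup).1 h

/-- No maximal antichain of `M` containing `xx` has exactly ten elements. -/
theorem no_antichain (A : Set M) (hA : IsMaxAntichain (· ≤ ·) A) (hx : xx ∈ A)
    (hc : A.ncard = 10) : False := by
  classical
  have hanti := hA.1
  have key := srch_sound A ?_ ?_ ?_ 33 le_rfl (2 ^ 33 - 1) 0 0 ?_ ?_ ?_ ?_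
  · rw [srch_false] at key
    exact absurd key (by decide)
  · intro i hi j hj hij hiA hjA
    have hne : g i ≠ g j := fun h => hij (g_inj i j hi hj h)
    exact ⟨hanti hiA hjA hne, hanti hjA hiA hne.symm⟩
  · intro j hj hjA
    by_contra hcon
    push Not at hcon
    apply hjA
    have h1 : IsAntichain (· ≤ ·) (insert (g j) A) := by
      apply hanti.insert
      · intro b hb hne
        by_cases hbx : b = xx
        · rw [hbx]
          exact (g_inc j hj).2
        · have hb1 : ¬ b ≤ xx := hanti hb hx hbx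
          have hb2 : ¬ xx ≤ b := hanti hx hb (Ne.symm hbx)
          obtain ⟨l, hl, rfl⟩ := g_surj b hb1 hb2
          exact (hcon l hl hb).2
      · intro b hb hne
        by_cases hbx : b = xx
        · rw [hbx]
          exact (g_inc j hj).1
        · have hb1 : ¬ b ≤ xx := hanti hb hx hbx
          have hb2 : ¬ xx ≤ b := hanti hx hb (Ne.symm hbx)
          obtain ⟨l, hl, rfl⟩ := g_surj b hb1 hb2
          exact (hcon l hl hb).1
    have h2 := hA.2 h1 (Set.subset_insert _ _)
    rw [h2]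
    exact Set.mem_insert _ _
  · have hAeq : A = insert xx (g '' {l | l < 33 ∧ g l ∈ A}) := by
      ext y
      constructor
      · intro hy
        by_cases hyx : y = xx
        · exact Or.inl hyx
        · right
          obtain ⟨l, hl, rfl⟩ := g_surj y (hanti hy hx hyx) (hanti hx hy (Ne.symm hyx))
          exact ⟨l, ⟨hl, hy⟩, rfl⟩
      · rintro (rfl | ⟨l, ⟨_, h⟩, rfl⟩)
        · exact hx
        · exact h
    have hnot : xx ∉ g '' {l | l < 33 ∧ g l ∈ A} := by
      rintro ⟨l, ⟨hl, _⟩, h⟩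
      exact (g_inc l hl).1 h.le
    have hset : {l | l < 33 ∧ g l ∈ A} =
        (((Finset.range 33).filter (fun l => 0 ≤ l ∧ g l ∈ A) : Finset ℕ) : Set ℕ) := by
      ext l
      simp
    have hinj : Set.InjOn g {l | l < 33 ∧ g l ∈ A} :=
      fun i hi j hj h => g_inj i j hi.1 hj.1 h
    have h10 : (insert xx (g '' {l | l < 33 ∧ g l ∈ A})).ncard = 10 := by
      rw [← hAeq]
      exact hc
    rw [Set.ncard_insert_of_notMem hnot (Set.toFinite _), hinj.ncard_image, hset,
      Set.ncard_coe_finset] at h10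
    unfold cnt
    omega
  · intro j hj _
    rw [Nat.testBit_two_pow_sub_one]
    exact decide_eq_true hj
  · intro j hj _ l hl hl33
    omega
  · intro j hj
    rw [Nat.zero_testBit] at hj
    exact absurd hj (by decide)
  · unfold cnt
    symm
    rw [Finset.card_eq_zero, Finset.filter_eq_empty_iff]
    intro l hl
    rw [Finset.mem_range] at hl
    omega

/-- **Q1 of MP_d015b4_co has a negative answer.**  There are a finite distributive lattice `L`, an
element `x` and a number `m` such that the minimum-sized cutsets for `x` have `m` elements, but no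
maximal antichain of `L` containing `x` has exactly `m + 1` elements. -/
theorem result : ∃ (L : Type) (_ : DistribLattice L) (_ : Finite L) (x : L) (m : ℕ),
    (∃ K : Set L, IsCutsetFor x K ∧ K.ncard = m) ∧
    (∀ K : Set L, IsCutsetFor x K → m ≤ K.ncard) ∧
    ¬ ∃ A : Set L, IsMaxAntichain (· ≤ ·) A ∧ x ∈ A ∧ A.ncard = m + 1 := by
  classical
  refine ⟨M, inferInstance, inferInstance, xx, 9, ⟨toSet cut, ⟨?_, ?_⟩, ?_⟩, ?_, ?_⟩
  · exact fun y hy => cut_inc y hy
  · intro C hC
    refine meets_of_closed (toSet reach) (toSet cut ∪ {xx}) bot_reach top_reach ?_ C hC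
    intro a ha b hb hbS hab
    exact reach_closed a ha b hb (fun h => hbS (Or.inl h)) (fun h => hbS (Or.inr h)) hab
  · have : toSet cut = ((cut.toFinset : Finset M) : Set M) := by
      ext y
      simp [toSet]
    rw [this, Set.ncard_coe_finset, List.toFinset_card_of_nodup cut_nodup]
    rfl
  · intro K hK
    have hlen : chains.length = 9 := rfl
    have hmem : ∀ i : Fin 9, chains.getD i [] ∈ chains := by
      intro i
      rw [List.getD_eq_getElem _ _ (by rw [hlen]; exact i.2)]
      exact List.getElem_mem _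
    refine card_le_of_chains xx 9 (fun i => toSet (chains.getD i [])) ?_ ?_ ?_ K hK
    · intro i
      refine ⟨?_, ?_⟩
      · intro a ha b hb _
        exact chains_chain _ (hmem i) a ha b hb
      · intro t ht hsub
        apply Set.Subset.antisymm hsub
        intro z hz
        by_contra hzn
        obtain ⟨y, hy, h1, h2⟩ := chains_max _ (hmem i) z hzn
        rcases ht.total (hsub hy) hz with h | h
        · exact h1 h
        · exact h2 h
    · intro i h
      exact chains_x _ (hmem i) h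
    · intro i j hij y h1 h2
      exact chains_disj i j hij y h1 h2
  · rintro ⟨A, hA, hx, hc⟩
    exact no_antichain A hA hx hc

end Pool.Agent.Results.MP_d015b4_co.NoAntichain
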